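import Mathlib

/-!
# Local lemma for random bijections (canonical events, Lu-Szekely)

`G c d` = the bijections `σ : α ≃ β` with `d (σ i) = c i` (classes; a class with one element
prescribes the value of `σ`).  An event is a pair `(S, f)`: `σ i = f i` for all `i ∈ S`.
Two events are neighbours if their domains or their images meet.
-/

open scoped BigOperators
open Finset

namespace Pool.Agent.THC.H27

open scoped Classical

section abs

variable {Ω J : Type*} (G : Finset Ω) (E : J → Ω → Prop)

/-- the elements of `G` which avoid the events in `A` -/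
noncomputable def av (A : Finset J) : Finset Ω := G.filter fun σ => ∀ j ∈ A, ¬ E j σ

theorem av_insert (A : Finset J) (j : J) :
    ((av G E A).card : ℝ) = (av G E (insert j A)).card + ((av G E A).filter (E j)).card := by
  have h := Finset.card_filter_add_card_filter_not (s := av G E A) (fun σ => ¬ E j σ)
  have e1 : (av G E A).filter (fun σ => ¬ E j σ) = av G E (insert j A) := by
    ext σ
    simp only [av, Finset.mem_filter, Finset.mem_insert, forall_eq_or_imp]
    tauto
  have e2 : (av G E A).filter (fun σ => ¬ ¬ E j σ) = (av G E A).filter (E j) := by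
    ext σ
    simp only [Finset.mem_filter, not_not]
  rw [e1, e2] at h
  rw [← h]
  push_cast
  ring

theorem av_union_le (A B : Finset J) :
    ((av G E A).card : ℝ) ≤ (av G E (A ∪ B)).card +
      ∑ j ∈ B, (((av G E A).filter (E j)).card : ℝ) := by
  induction B using Finset.induction_on with
  | empty => simp
  | insert j B hj ih =>
    rw [Finset.sum_insert hj]
    have h1 := av_insert G E (A ∪ B) j
    have h2 : ((av G E (A ∪ B)).filter (E j)).card ≤ ((av G E A).filter (E j)).card := by
      apply Finset.card_le_card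
      intro σ hσ
      simp only [av, Finset.mem_filter, Finset.mem_union] at hσ ⊢
      exact ⟨⟨hσ.1.1, fun i hi => hσ.1.2 i (Or.inl hi)⟩, hσ.2⟩
    have h3 : A ∪ insert j B = insert j (A ∪ B) := by
      ext x
      simp only [Finset.mem_union, Finset.mem_insert]
      tauto
    rw [h3]
    have h4 : (((av G E (A ∪ B)).filter (E j)).card : ℝ) ≤ ((av G E A).filter (E j)).card := by
      exact_mod_cast h2
    linarith

/-- lopsided local lemma, weights below `1/4` -/
theorem lll_abs (hG : G.Nonempty) [Fintype J] (nb : J → J → Prop) (p : J → ℝ)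
    (hp : ∀ j, 0 ≤ p j)
    (hlop : ∀ j, ∀ A : Finset J, (∀ i ∈ A, ¬ nb j i) →
      (((av G E A).filter (E j)).card : ℝ) ≤ p j * (av G E A).card)
    (hsum : ∀ j, ∑ i with nb j i, p i ≤ 1 / 4) (hrefl : ∀ j, nb j j) :
    ∃ σ ∈ G, ∀ j, ¬ E j σ := by
  have key : ∀ n : ℕ, ∀ A : Finset J, A.card = n → ∀ j,
      (((av G E A).filter (E j)).card : ℝ) ≤ 2 * p j * (av G E A).card := by
    intro n
    induction n using Nat.strong_induction_on with
    | _ n ih =>
      intro A hA j
      obtain ⟨A1, hA1⟩ : ∃ A1, A1 = A.filter fun i => nb j i := ⟨_, rfl⟩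
      obtain ⟨A2, hA2⟩ : ∃ A2, A2 = A.filter fun i => ¬ nb j i := ⟨_, rfl⟩
      have hu : A2 ∪ A1 = A := by
        ext x
        simp only [hA1, hA2, Finset.mem_union, Finset.mem_filter]
        tauto
      have h1 := hlop j A2 (by
        intro i hi
        rw [hA2, Finset.mem_filter] at hi
        exact hi.2)
      have h2 : (((av G E A).filter (E j)).card : ℝ) ≤ ((av G E A2).filter (E j)).card := by
        exact_mod_cast Finset.card_le_card (by
          intro σ hσ
          simp only [av, Finset.mem_filter] at hσ ⊢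
          refine ⟨⟨hσ.1.1, fun i hi => hσ.1.2 i ?_⟩, hσ.2⟩
          rw [← hu]
          exact Finset.mem_union_left _ hi)
      rcases A1.eq_empty_or_nonempty with h0 | hne
      · have h3 : A2 = A := by rw [← hu, h0, Finset.union_empty]
        rw [h3] at h1
        have h4 : 0 ≤ p j * (av G E A).card := mul_nonneg (hp j) (Nat.cast_nonneg _)
        linarith
      · have hlt : A2.card < n := by
          rw [← hA]
          apply Finset.card_lt_card
          rw [Finset.ssubset_iff_of_subset (by rw [hA2]; exact Finset.filter_subset _ _)]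
          obtain ⟨x, hx⟩ := hne
          rw [hA1, Finset.mem_filter] at hx
          refine ⟨x, hx.1, ?_⟩
          rw [hA2, Finset.mem_filter]
          exact fun h => h.2 hx.2
        have h3 := av_union_le G E A2 A1
        rw [hu] at h3
        have h4 : ∑ i ∈ A1, (((av G E A2).filter (E i)).card : ℝ) ≤
            (1 / 2) * (av G E A2).card := by
          calc ∑ i ∈ A1, (((av G E A2).filter (E i)).card : ℝ)
              ≤ ∑ i ∈ A1, 2 * p i * (av G E A2).card :=
                Finset.sum_le_sum fun i _ => ih A2.card hlt A2 rfl i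
            _ = 2 * (∑ i ∈ A1, p i) * (av G E A2).card := by
                rw [Finset.mul_sum, Finset.sum_mul]
            _ ≤ 2 * (1 / 4) * (av G E A2).card := by
                apply mul_le_mul_of_nonneg_right _ (Nat.cast_nonneg _)
                apply mul_le_mul_of_nonneg_left _ (by norm_num)
                refine le_trans (Finset.sum_le_sum_of_subset_of_nonneg ?_ fun i _ _ => hp i)
                  (hsum j)
                intro i hi
                rw [hA1, Finset.mem_filter] at hi
                rw [Finset.mem_filter]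
                exact ⟨Finset.mem_univ _, hi.2⟩
            _ = _ := by ring
        have h5 : ((av G E A2).card : ℝ) ≤ 2 * (av G E A).card := by linarith
        calc (((av G E A).filter (E j)).card : ℝ) ≤ p j * (av G E A2).card := h2.trans h1
          _ ≤ p j * (2 * (av G E A).card) := mul_le_mul_of_nonneg_left h5 (hp j)
          _ = _ := by ring
  have hpj : ∀ j, p j ≤ 1 / 4 := by
    intro j
    refine le_trans ?_ (hsum j)
    exact Finset.single_le_sum (f := p) (fun i _ => hp i)
      (Finset.mem_filter.2 ⟨Finset.mem_univ j, hrefl j⟩)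
  have hpos : ∀ A : Finset J, 0 < ((av G E A).card : ℝ) := by
    intro A
    induction A using Finset.induction_on with
    | empty =>
      have : av G E ∅ = G := by
        ext σ
        simp [av]
      rw [this]
      exact_mod_cast hG.card_pos
    | insert j A hj ih =>
      have h1 := av_insert G E A j
      have h2 := key A.card A rfl j
      have h3 : 2 * p j * (av G E A).card ≤ (1 / 2) * (av G E A).card := by
        apply mul_le_mul_of_nonneg_right _ ih.le
        linarith [hpj j]
      linarith
  have h1 := hpos Finset.univ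
  have h2 : (av G E Finset.univ).Nonempty := by
    rw [← Finset.card_pos]
    exact_mod_cast h1
  obtain ⟨σ, hσ⟩ := h2
  simp only [av, Finset.mem_filter] at hσ
  exact ⟨σ, hσ.1, fun j => hσ.2 j (Finset.mem_univ j)⟩

end abs

section bij

variable {α β κ J : Type*} [Fintype α] [Fintype β]

/-- the bijections which respect the classes -/
noncomputable def Gb (c : α → κ) (d : β → κ) : Finset (α ≃ β) :=
  univ.filter fun σ => ∀ i, d (σ i) = c i

/-- if the classes have the same sizes there is such a bijection -/
theorem Gb_nonempty (c : α → κ) (d : β → κ)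
    (h : ∀ x, (univ.filter fun i => c i = x).card = (univ.filter fun b => d b = x).card) :
    (Gb c d).Nonempty := by
  have h1 : ∀ x, Nonempty ({i // c i = x} ≃ {b // d b = x}) := by
    intro x
    rw [← Fintype.card_eq, Fintype.card_subtype, Fintype.card_subtype]
    exact h x
  let e : ∀ x, {i // c i = x} ≃ {b // d b = x} := fun x => Classical.choice (h1 x)
  let σ : α ≃ β := (Equiv.sigmaFiberEquiv c).symm.trans
    ((Equiv.sigmaCongrRight e).trans (Equiv.sigmaFiberEquiv d))
  refine ⟨σ, ?_⟩
  rw [Gb, Finset.mem_filter]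
  refine ⟨Finset.mem_univ _, fun i => ?_⟩
  exact (e (c i) ⟨i, rfl⟩).2

variable {c : α → κ} {d : β → κ} {S : J → Finset α} {f : J → α → β}

/-- the event `j` -/
def Ev (S : J → Finset α) (f : J → α → β) (j : J) (σ : α ≃ β) : Prop := ∀ i ∈ S j, σ i = f j i

/-- neighbours -/
def Nb (S : J → Finset α) (f : J → α → β) (j i : J) : Prop :=
  ¬ Disjoint (S j) (S i) ∨ ¬ Disjoint ((S j).image (f j)) ((S i).image (f i))

theorem step (k : ℕ) (w : α → ℝ)
    (hw : ∀ i, w i = 1 ∨ 1 ≤ w i * (((univ.filter fun b => d b = c i).card : ℝ) - (k - 1)))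
    (hw0 : ∀ i, 0 ≤ w i) (j : J) (A : Finset J) (hA : ∀ i ∈ A, ¬ Nb S f j i)
    (T : Finset α) (i₀ : α) (hi : i₀ ∉ T) (hT : insert i₀ T ⊆ S j) (hk : (S j).card ≤ k) :
    (((av (Gb c d) (Ev S f) A).filter fun σ => ∀ i ∈ insert i₀ T, σ i = f j i).card : ℝ) ≤
      w i₀ * ((av (Gb c d) (Ev S f) A).filter fun σ => ∀ i ∈ T, σ i = f j i).card := by
  obtain ⟨X, hX⟩ : ∃ X, X = (av (Gb c d) (Ev S f) A).filter
    fun σ => ∀ i ∈ insert i₀ T, σ i = f j i := ⟨_, rfl⟩
  obtain ⟨Y, hY⟩ : ∃ Y, Y = (av (Gb c d) (Ev S f) A).filter
    fun σ => ∀ i ∈ T, σ i = f j i := ⟨_, rfl⟩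
  rw [← hX, ← hY]
  have hXY : X ⊆ Y := by
    intro σ hσ
    rw [hX, Finset.mem_filter] at hσ
    rw [hY, Finset.mem_filter]
    exact ⟨hσ.1, fun i hi => hσ.2 i (Finset.mem_insert_of_mem hi)⟩
  rcases hw i₀ with h1 | h1
  · rw [h1, one_mul]
    exact_mod_cast Finset.card_le_card hXY
  obtain ⟨B, hB⟩ : ∃ B, B = (univ.filter fun b => d b = c i₀) \ T.image (f j) := ⟨_, rfl⟩
  have hBc : ((univ.filter fun b => d b = c i₀).card : ℝ) - (k - 1) ≤ B.card := by
    have h2 : (univ.filter fun b => d b = c i₀).card ≤ B.card + T.card := by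
      have h3 := Finset.card_le_card_sdiff_add_card (s := univ.filter fun b => d b = c i₀)
        (t := T.image (f j))
      have h4 : (T.image (f j)).card ≤ T.card := Finset.card_image_le
      rw [hB]
      omega
    have h3 : T.card + 1 ≤ k := by
      rw [← Finset.card_insert_of_notMem hi]
      exact (Finset.card_le_card hT).trans hk
    have h4 : ((univ.filter fun b => d b = c i₀).card : ℝ) ≤ B.card + T.card := by
      exact_mod_cast h2
    have h5 : (T.card : ℝ) + 1 ≤ k := by exact_mod_cast h3
    linarith
  -- the slices of Y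
  have hsl : ∀ b ∈ B, X.card ≤ (Y.filter fun σ => σ i₀ = b).card := by
    intro b hb
    rw [hB, Finset.mem_sdiff, Finset.mem_filter, Finset.mem_image] at hb
    obtain ⟨⟨-, hb1⟩, hb2⟩ := hb
    apply Finset.card_le_card_of_injOn (fun σ : α ≃ β => σ.trans (Equiv.swap (f j i₀) b))
    · intro σ hσ
      rw [Finset.mem_coe, hX, Finset.mem_filter, av, Finset.mem_filter, Gb, Finset.mem_filter] at hσ
      obtain ⟨⟨⟨-, hσ1⟩, hσ2⟩, hσ3⟩ := hσ
      have e0 : σ i₀ = f j i₀ := hσ3 i₀ (Finset.mem_insert_self _ _)
      have eb : (σ.trans (Equiv.swap (f j i₀) b)) i₀ = b := by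
        show Equiv.swap (f j i₀) b (σ i₀) = b
        rw [e0, Equiv.swap_apply_left]
      rw [Finset.mem_coe, Finset.mem_filter, hY, Finset.mem_filter, av, Finset.mem_filter, Gb,
        Finset.mem_filter]
      refine ⟨⟨⟨⟨Finset.mem_univ _, fun i => ?_⟩, fun j' hj' => ?_⟩, fun i hi' => ?_⟩, eb⟩
      · show d (Equiv.swap (f j i₀) b (σ i)) = c i
        by_cases h2 : σ i = f j i₀
        · rw [h2, Equiv.swap_apply_left, hb1, ← hσ1 i, h2, ← e0, hσ1]
        · by_cases h3 : σ i = b
          · rw [h3, Equiv.swap_apply_right, ← e0, hσ1, ← hb1, ← h3, hσ1]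
          · rw [Equiv.swap_apply_of_ne_of_ne h2 h3, hσ1]
      · intro hE
        apply hσ2 j' hj'
        have hnb := hA j' hj'
        rw [Nb, not_or, not_not, not_not] at hnb
        obtain ⟨n1, n2⟩ := hnb
        intro i hi'
        have hi2 := hE i hi'
        have hi3 : Equiv.swap (f j i₀) b (σ i) = f j' i := hi2
        have hi₀S : i₀ ∈ S j := hT (Finset.mem_insert_self _ _)
        have h2 : f j' i ≠ f j i₀ := by
          intro h
          exact Finset.disjoint_left.1 n2 (Finset.mem_image_of_mem _ hi₀S)
            (h ▸ Finset.mem_image_of_mem _ hi')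
        have h3 : f j' i ≠ b := by
          intro h
          have h4 : i = i₀ := by
            apply (σ.trans (Equiv.swap (f j i₀) b)).injective
            exact hi3.trans (h.trans eb.symm)
          rw [h4] at hi'
          exact Finset.disjoint_left.1 n1 hi₀S hi'
        have h5 : σ i = Equiv.swap (f j i₀) b (f j' i) := by
          rw [← hi3, Equiv.swap_apply_self]
        rw [h5, Equiv.swap_apply_of_ne_of_ne h2 h3]
      · show Equiv.swap (f j i₀) b (σ i) = f j i
        have h2 : σ i = f j i := hσ3 i (Finset.mem_insert_of_mem hi')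
        have h3 : f j i ≠ f j i₀ := by
          intro h
          have h4 : i = i₀ := σ.injective (by rw [h2, h, e0])
          exact hi (h4 ▸ hi')
        have h4 : f j i ≠ b := fun h => hb2 ⟨i, hi', h⟩
        rw [h2, Equiv.swap_apply_of_ne_of_ne h3 h4]
    · intro σ _ τ _ h
      ext i
      have h2 := congrArg (fun ρ : α ≃ β => ρ i) h
      exact (Equiv.swap (f j i₀) b).injective h2
  have hsum : B.card * X.card ≤ Y.card := by
    calc B.card * X.card = ∑ b ∈ B, X.card := by rw [Finset.sum_const, smul_eq_mul]
      _ ≤ ∑ b ∈ B, (Y.filter fun σ => σ i₀ = b).card := Finset.sum_le_sum hsl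
      _ ≤ ∑ b, (Y.filter fun σ => σ i₀ = b).card :=
          Finset.sum_le_sum_of_subset (Finset.subset_univ _)
      _ = Y.card := (Finset.card_eq_sum_card_fiberwise (f := fun σ : α ≃ β => σ i₀)
          (t := univ) (by intro x _; simp)).symm
  have hsum' : (B.card : ℝ) * X.card ≤ Y.card := by exact_mod_cast hsum
  have hXn : (0 : ℝ) ≤ X.card := Nat.cast_nonneg _
  calc (X.card : ℝ) = 1 * X.card := (one_mul _).symm
    _ ≤ w i₀ * (((univ.filter fun b => d b = c i₀).card : ℝ) - (k - 1)) * X.card :=
        mul_le_mul_of_nonneg_right h1 hXn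
    _ ≤ w i₀ * B.card * X.card := by
        apply mul_le_mul_of_nonneg_right _ hXn
        exact mul_le_mul_of_nonneg_left hBc (hw0 i₀)
    _ = w i₀ * (B.card * X.card) := by ring
    _ ≤ w i₀ * Y.card := mul_le_mul_of_nonneg_left hsum' (hw0 i₀)

/-- Local lemma for random bijections respecting classes.  `w i` bounds the probability of a
given value at the position `i`: either `w i = 1` or `w i ≥ 1 / (N_i - k + 1)`, `N_i` the size of
the class of `i`, `k` the maximal number of positions of an event. -/
theorem lll_bij [Fintype J] (hne : (Gb c d).Nonempty) (k : ℕ) (w : α → ℝ)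
    (hw : ∀ i, w i = 1 ∨ 1 ≤ w i * (((univ.filter fun b => d b = c i).card : ℝ) - (k - 1)))
    (hw0 : ∀ i, 0 ≤ w i) (hk : ∀ j, (S j).card ≤ k) (hS : ∀ j, (S j).Nonempty)
    (hsum : ∀ j, ∑ i with Nb S f j i, ∏ x ∈ S i, w x ≤ 1 / 4) :
    ∃ σ : α ≃ β, (∀ i, d (σ i) = c i) ∧ ∀ j, ∃ i ∈ S j, σ i ≠ f j i := by
  obtain ⟨σ, hσ, h⟩ := lll_abs (Gb c d) (Ev S f) hne (Nb S f) (fun j => ∏ x ∈ S j, w x)
    (fun j => Finset.prod_nonneg fun x _ => hw0 x) (by
      intro j A hA
      have key : ∀ T : Finset α, T ⊆ S j →
          (((av (Gb c d) (Ev S f) A).filter fun σ => ∀ i ∈ T, σ i = f j i).card : ℝ) ≤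
            (∏ x ∈ T, w x) * (av (Gb c d) (Ev S f) A).card := by
        intro T
        induction T using Finset.induction_on with
        | empty =>
          intro _
          rw [Finset.prod_empty, one_mul]
          exact_mod_cast Finset.card_le_card (Finset.filter_subset _ _)
        | insert i₀ T hi ih =>
          intro hT
          rw [Finset.prod_insert hi, mul_assoc]
          refine (step k w hw hw0 j A hA T i₀ hi hT (hk j)).trans ?_
          exact mul_le_mul_of_nonneg_left
            (ih ((Finset.subset_insert _ _).trans hT)) (hw0 i₀)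
      have e1 : ((av (Gb c d) (Ev S f) A).filter (Ev S f j)) =
          ((av (Gb c d) (Ev S f) A).filter fun σ => ∀ i ∈ S j, σ i = f j i) := by
        ext σ
        simp only [Finset.mem_filter, Ev]
      rw [e1]
      exact key (S j) (Finset.Subset.refl _))
    hsum (by
      intro j
      left
      rw [Finset.disjoint_self_iff_empty]
      exact (hS j).ne_empty)
  rw [Gb, Finset.mem_filter] at hσ
  refine ⟨σ, hσ.2, fun j => ?_⟩
  by_contra hcon
  push Not at hcon
  exact h j hcon

end bij

end Pool.Agent.THC.H27
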